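import Pool.Agent.Helper78.DT.Goals

/-!
# Project DT, packet DEPCNT
-/

set_option autoImplicit false

namespace Pool.Agent.Helper61.DT

open Pool.Agent.Helper78.DT

open scoped Classical

theorem sat_congr {V : Type} {T : Tm V} {x y : V → Bool} (h : ∀ p ∈ T, x p.1 = y p.1) : Sat T x ↔ Sat T y := by
  unfold Sat
  exact ⟨fun hx p hp => by rw [← h p hp]; exact hx p hp, fun hy p hp => by rw [h p hp]; exact hy p hp⟩

theorem nosat_congr {V : Type} {f : DL V} {x y : V → Bool} (h : ∀ v ∈ vars f, x v = y v) :
    NoSat f x ↔ NoSat f y := by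
  unfold NoSat
  refine forall₂_congr fun e he => not_congr (sat_congr fun p hp => h p.1 ⟨e, he, p, hp, rfl⟩)

theorem vars_take {V : Type} (g : DL V) (l : ℕ) : vars (g.take l) ⊆ vars g := by
  rintro v ⟨e, he, p, hp, rfl⟩
  exact ⟨e, List.mem_of_mem_take he, p, hp, rfl⟩

theorem ev_congr {V : Type} (f : DL V) {x y : V → Bool} (h : ∀ v ∈ vars f, x v = y v) : ev f x = ev f y := by
  induction f with
  | nil => rfl
  | cons e f ih =>
    have h1 : Sat e.1 x ↔ Sat e.1 y := sat_congr fun p hp => h p.1 ⟨e, List.mem_cons_self, p, hp, rfl⟩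
    have h2 : ev f x = ev f y := by
      refine ih fun v hv => ?_
      obtain ⟨e', he', p, hp, rfl⟩ := hv
      exact h _ ⟨e', List.mem_cons_of_mem e he', p, hp, rfl⟩
    show (if Sat e.1 x then e.2 else ev f x) = if Sat e.1 y then e.2 else ev f y
    simp only [h1, h2]

theorem bad_imp {V : Type} [Fintype V] [DecidableEq V] {t : ℕ} {k : ℝ} {g : DL V} {x y : V → Bool}
    (h : ∀ v ∈ vars g, x v = y v) (hx : Bad t k g x) : Bad t k g y := by
  obtain ⟨l, hl, h1, T, hT, hc, hs, hp⟩ := hx
  exact ⟨l, hl, (nosat_congr fun v hv => h v (vars_take g l hv)).1 h1, T, hT, hc,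
    (sat_congr fun p hp' => h p.1 (hT p hp')).1 hs, hp⟩

theorem vars_ncard {V : Type} [Fintype V] (t : ℕ) (g : DL V) : Wid t g → (vars g).ncard ≤ t * g.length := by
  induction g with
  | nil =>
    intro _
    have h1 : vars ([] : DL V) = ∅ := by
      ext v
      simp [vars]
    rw [h1, Set.ncard_empty]
    exact Nat.zero_le _
  | cons e g ih =>
    intro h
    have h1 : (vars g).ncard ≤ t * g.length := ih fun e' he' => h e' (List.mem_cons_of_mem e he')
    have h2 : vars (e :: g) ⊆ (Prod.fst '' (e.1 : Set (V × Bool))) ∪ vars g := by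
      rintro v ⟨e', he', p, hp, rfl⟩
      rcases List.mem_cons.1 he' with rfl | he'
      · exact Or.inl ⟨p, hp, rfl⟩
      · exact Or.inr ⟨e', he', p, hp, rfl⟩
    have h3 := Set.ncard_le_ncard h2 (Set.toFinite _)
    have h4 := Set.ncard_union_le (Prod.fst '' (e.1 : Set (V × Bool))) (vars g)
    have h5 : (Prod.fst '' (e.1 : Set (V × Bool))).ncard ≤ (e.1 : Set (V × Bool)).ncard :=
      Set.ncard_image_le (Set.toFinite _)
    rw [Set.ncard_coe_finset] at h5
    have h6 : e.1.card ≤ t := h e List.mem_cons_self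
    rw [List.length_cons, Nat.mul_succ]
    omega

/-- PACKET DEP -/
theorem dep : DepStmt := by
  intro V _ _ g t k
  refine ⟨fun x y h => ?_, fun x y h => ?_, vars_ncard t g⟩
  · unfold lo
    rw [ev_congr g h]
    exact and_congr_right fun _ => not_congr ⟨bad_imp h, bad_imp fun v hv => (h v hv).symm⟩
  · unfold hi
    rw [ev_congr g h]
    exact or_congr_right ⟨bad_imp h, bad_imp fun v hv => (h v hv).symm⟩

/-- the number of terms with at most `t` literals -/
theorem card_terms (P t : ℕ) :
    ((Finset.univ : Finset (Tm (Fin P))).filter fun T => T.card ≤ t).card ≤ (2 * P + 1) ^ t := by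
  induction t with
  | zero =>
    have h1 : ((Finset.univ : Finset (Tm (Fin P))).filter fun T => T.card ≤ 0) ⊆ {∅} := by
      intro T hT
      rw [Finset.mem_filter, Nat.le_zero, Finset.card_eq_zero] at hT
      rw [Finset.mem_singleton]
      exact hT.2
    refine (Finset.card_le_card h1).trans ?_
    simp
  | succ t ih =>
    have h1 : ((Finset.univ : Finset (Tm (Fin P))).filter fun T => T.card ≤ t + 1) ⊆
        ((Finset.univ : Finset (Option (Fin P × Bool))) ×ˢ
          ((Finset.univ : Finset (Tm (Fin P))).filter fun T => T.card ≤ t)).image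
            (fun q => q.1.elim q.2 (fun p => insert p q.2)) := by
      intro T hT
      rw [Finset.mem_filter] at hT
      rw [Finset.mem_image]
      rcases T.eq_empty_or_nonempty with rfl | ⟨p, hp⟩
      · refine ⟨(none, ∅), ?_, rfl⟩
        rw [Finset.mem_product, Finset.mem_filter]
        exact ⟨Finset.mem_univ _, Finset.mem_univ _, by simp⟩
      · refine ⟨(some p, T.erase p), ?_, ?_⟩
        · rw [Finset.mem_product, Finset.mem_filter]
          refine ⟨Finset.mem_univ _, Finset.mem_univ _, ?_⟩
          show (T.erase p).card ≤ t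
          rw [Finset.card_erase_of_mem hp]
          omega
        · show insert p (T.erase p) = T
          exact Finset.insert_erase hp
    refine (Finset.card_le_card h1).trans (Finset.card_image_le.trans ?_)
    rw [Finset.card_product, Finset.card_univ, Fintype.card_option, Fintype.card_prod, Fintype.card_fin,
      Fintype.card_bool, pow_succ, mul_comm, mul_comm P 2]
    exact Nat.mul_le_mul_right _ ih

theorem exists_lists (P t s : ℕ) : ∃ L : Finset (DL (Fin P)),
    (∀ g : DL (Fin P), Wid t g → g.length ≤ s → g ∈ L) ∧ L.card ≤ (2 * (2 * P + 1) ^ t + 1) ^ s := by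
  induction s with
  | zero =>
    refine ⟨{[]}, fun g _ hg => ?_, by simp⟩
    rw [Finset.mem_singleton]
    exact List.length_eq_zero_iff.1 (Nat.le_zero.1 hg)
  | succ s ih =>
    obtain ⟨L, hL, hc⟩ := ih
    set A := ((Finset.univ : Finset (Tm (Fin P))).filter fun T => T.card ≤ t) ×ˢ (Finset.univ : Finset Bool) with hA
    refine ⟨insert [] ((A ×ˢ L).image fun q => q.1 :: q.2), fun g hw hg => ?_, ?_⟩
    · rw [Finset.mem_insert]
      cases g with
      | nil => exact Or.inl rfl
      | cons e g =>
        refine Or.inr (Finset.mem_image.2 ⟨(e, g), ?_, rfl⟩)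
        rw [Finset.mem_product, hA, Finset.mem_product, Finset.mem_filter]
        refine ⟨⟨⟨Finset.mem_univ _, hw e List.mem_cons_self⟩, Finset.mem_univ _⟩, ?_⟩
        refine hL g (fun e' he' => hw e' (List.mem_cons_of_mem e he')) ?_
        rw [List.length_cons] at hg
        omega
    · refine (Finset.card_insert_le _ _).trans ?_
      have h1 : ((A ×ˢ L).image fun q => q.1 :: q.2).card ≤ (2 * (2 * P + 1) ^ t) * (2 * (2 * P + 1) ^ t + 1) ^ s := by
        refine Finset.card_image_le.trans ?_
        rw [Finset.card_product]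
        refine Nat.mul_le_mul ?_ hc
        rw [hA, Finset.card_product, Finset.card_univ, Fintype.card_bool, mul_comm]
        exact Nat.mul_le_mul_left 2 (card_terms P t)
      have h2 : 1 ≤ (2 * (2 * P + 1) ^ t + 1) ^ s := Nat.one_le_pow _ _ (Nat.succ_pos _)
      rw [pow_succ, Nat.mul_add, mul_one, mul_comm ((2 * (2 * P + 1) ^ t + 1) ^ s)]
      exact Nat.add_le_add h1 h2

/-- PACKET CNT -/
theorem cnt : CntStmt := by
  intro P t s
  obtain ⟨L, hL, hc⟩ := exists_lists P t s
  have h1 : {g : DL (Fin P) | Wid t g ∧ g.length ≤ s} ⊆ (L : Set (DL (Fin P))) :=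
    fun g hg => Finset.mem_coe.2 (hL g hg.1 hg.2)
  refine ⟨L.finite_toSet.subset h1, ?_⟩
  refine (Set.ncard_le_ncard h1 L.finite_toSet).trans ?_
  rw [Set.ncard_coe_finset]
  exact hc

end Pool.Agent.Helper61.DT
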