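import Pool.Agent.Helper78.DT.Goals3

/-!
# Project DT, packet GAP: languages
-/

set_option autoImplicit false

namespace Pool.Agent.Helper61.DT

open Pool.Agent.Helper81.CC Pool.Agent.Helper51.ZP Pool.Agent.Helper78.DT Pool.Agent.Helper31.TMSim
open Pool.Agent.Helper83.CL Computability

theorem PT_of_comp' {α β : Type} [ToData α] [ToData β] {f : α → β}
    (h : PolyTimeComputable (encOf α) (encOf β) f) : PolyTime f :=
  ⟨scomp_of_polyTimeComputable h⟩

/-! ### Logarithms -/

theorem iter_half (n i : ℕ) : (fun y => y / 2)^[i] n = n / 2 ^ i := by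
  induction i with
  | zero => simp
  | succ i ih => rw [Function.iterate_succ_apply', ih, Nat.div_div_eq_div_mul, pow_succ]

theorem filter_lt (m k : ℕ) : ((List.range (m + k)).filter fun i => decide (i < m)).length = m := by
  rw [List.range_add, List.filter_append, List.length_append]
  have h1 : (List.range m).filter (fun i => decide (i < m)) = List.range m := by
    rw [List.filter_eq_self]
    intro i hi
    rw [List.mem_range] at hi
    simpa using hi
  have h2 : ((List.range k).map (m + ·)).filter (fun i => decide (i < m)) = [] := by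
    rw [List.filter_eq_nil_iff]
    intro i hi
    rw [List.mem_map] at hi
    obtain ⟨j, -, rfl⟩ := hi
    simp
  rw [h1, h2, List.length_range]
  rfl

theorem log_count (n : ℕ) :
    ((List.range n).filter fun i => decide (2 ≤ (fun y => y / 2)^[i] n)).length = Nat.log 2 n := by
  rcases Nat.eq_zero_or_pos n with rfl | hn
  · simp
  · have h1 : ∀ i, (2 ≤ (fun y => y / 2)^[i] n) ↔ i < Nat.log 2 n := by
      intro i
      rw [iter_half, Nat.le_div_iff_mul_le (by positivity), ← pow_succ', ← Nat.le_log_iff_pow_le (by norm_num) hn.ne']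
      exact Nat.succ_le_iff
    have h2 : Nat.log 2 n ≤ n := Nat.log_le_self 2 n
    obtain ⟨k, hk⟩ := Nat.exists_eq_add_of_le h2
    have h3 : (List.range n).filter (fun i => decide (2 ≤ (fun y => y / 2)^[i] n)) =
        (List.range (Nat.log 2 n + k)).filter fun i => decide (i < Nat.log 2 n) := by
      rw [← hk]
      refine List.filter_congr fun i _ => ?_
      rw [decide_eq_decide]
      exact h1 i
    rw [h3, filter_lt]

theorem PT_log {α : Type} [ToData α] {n : α → ℕ} (hn : PolyTime n) : PolyTime fun a => Nat.log 2 (n a) := by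
  have h0 : PolyTime (fun z : α × ℕ => n z.1) := PolyTime.comp hn (by fun_prop)
  have h1 : PolyTime (fun z : α × ℕ => (fun y => y / 2)^[z.2] (n z.1)) := by
    refine PolyTime.iterate_bd (n := fun z : α × ℕ => z.2) (s0 := fun z => n z.1) (step := fun _ y => y / 2)
      (by fun_prop) h0 (by fun_prop) (B := fun z : α × ℕ => sz (n z.1)) h0.bd ?_
    intro z k _
    rw [iter_half, sz_nat, sz_nat]
    have := Nat.div_le_self (n z.1) (2 ^ k)
    omega
  have h2 : PolyTime (fun z : α × ℕ => decide (2 ≤ (fun y => y / 2)^[z.2] (n z.1))) := by fun_prop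
  have h3 : PolyTime fun a => ((List.range (n a)).filter fun i => decide (2 ≤ (fun y => y / 2)^[i] (n a))).length :=
    PolyTime.length (PolyTime.filter (PolyTime.range hn) h2)
  exact PolyTime.congr h3 fun a => log_count (n a)

/-! ### The trivial machine -/

/-- the action of the trivial machine -/
def act0 (f : List Bool → Bool) (z : View (List Bool)) : ℕ := if f z.1 = true then 2 else 1

theorem PT_act0 {f : List Bool → Bool} (hf : PolyTime f) : PolyTime (act0 f) := by
  unfold act0
  have h1 : PolyTime (fun z : View (List Bool) => f z.1) := PolyTime.comp hf (by fun_prop)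
  fun_prop

/-- the trivial machine -/
noncomputable def M0 (f : List Bool → Bool) (hf : PolyTime f) : Pool.Agent.Helper78.DT.Machine (List Bool) where
  m _ := 0
  T _ := 1
  w _ := 1
  act := act0 f
  m_poly := (PolyTime.const (α := List Bool) (0 : ℕ)).computable
  T_poly := (PolyTime.const (α := List Bool) (1 : ℕ)).computable
  w_poly := (PolyTime.const (α := List Bool) (1 : ℕ)).computable
  act_poly := (PT_act0 hf).computable
  tree x i := by
    have h : {a : List Bool | ∀ k < a.length, 3 ≤ act0 f (x, i, a.take k)} ⊆ {[]} := by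
      intro a ha
      rw [Set.mem_singleton_iff]
      by_contra hne
      have h1 := ha 0 (List.length_pos_iff.2 hne)
      unfold act0 at h1
      split_ifs at h1 <;> omega
    exact (Set.encard_le_encard h).trans (by simp)

theorem M0_accepts (f : List Bool → Bool) (hf : PolyTime f) (x : List Bool) (r : Fin ((M0 f hf).m x) → Bool) :
    (M0 f hf).Accepts x r ↔ f x = true := by
  constructor
  · rintro ⟨i, -, ⟨a, -, ha, -⟩, -⟩
    by_contra hx
    have h1 : act0 f (x, i, a) = 2 := ha
    unfold act0 at h1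
    rw [if_neg hx] at h1
    omega
  · intro hx
    refine ⟨0, Nat.one_pos, ⟨[], fun k hk => absurd hk (Nat.not_lt_zero k), ?_, by norm_num⟩, fun j hj => absurd hj (Nat.not_lt_zero j)⟩
    show act0 f (x, 0, []) = 2
    unfold act0
    rw [if_pos hx]

theorem M0_acc_pos (f : List Bool → Bool) (hf : PolyTime f) (x : List Bool) (h : f x = true) :
    (M0 f hf).acc x = 1 := by
  unfold Pool.Agent.Helper78.DT.Machine.acc
  have e : Nat.card {r : Fin ((M0 f hf).m x) → Bool // (M0 f hf).Accepts x r} =
      Nat.card (Fin ((M0 f hf).m x) → Bool) :=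
    Nat.card_congr (Equiv.subtypeUnivEquiv fun r => (M0_accepts f hf x r).2 h)
  rw [e, Nat.card_eq_fintype_card, Fintype.card_fun, Fintype.card_bool, Fintype.card_fin]
  rfl

theorem M0_acc_neg (f : List Bool → Bool) (hf : PolyTime f) (x : List Bool) (h : f x = false) :
    (M0 f hf).acc x = 0 := by
  unfold Pool.Agent.Helper78.DT.Machine.acc
  have : IsEmpty {r : Fin ((M0 f hf).m x) → Bool // (M0 f hf).Accepts x r} :=
    ⟨fun r => by
      have := (M0_accepts f hf x r.1).1 r.2
      rw [h] at this
      exact Bool.false_ne_true this⟩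
  exact Nat.card_of_isEmpty

/-- PACKET GAP -/
theorem gap (hAll : AllStmt) : GapStmt := by
  intro c L
  constructor
  · intro hL
    obtain ⟨f, hf, h⟩ := PT_of_inP hL
    refine ⟨M0 f hf, fun _ => 0, (PolyTime.const (α := List Bool) (0 : ℕ)).computable, ?_, ?_⟩
    · intro x hx
      rw [M0_acc_pos f hf x ((h x).1 hx)]
      show (0 + 1) * 2 ^ 0 ≤ _
      have h1 : 1 ≤ (Nat.log 2 x.length + 2) ^ c := Nat.one_le_pow _ _ (by omega)
      simpa using h1
    · intro x hx
      have hfx : f x = false := by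
        rw [← Bool.not_eq_true, ← h x]
        exact hx
      rw [M0_acc_neg f hf x hfx]
      simp
  · rintro ⟨A, g, hg, h1, h2⟩
    have hlen : PolyTime (fun x : List Bool => x.length) := by fun_prop
    obtain ⟨f, hf, hfa⟩ := hAll (c + 2) (List Bool) A (fun x => x.length) hlen.computable
    have hgP : PolyTime g := PT_of_comp' hg
    have hfP : PolyTime f := PT_of_comp' hf
    have hlog : PolyTime (fun x : List Bool => Nat.log 2 x.length) := PT_log hlen
    have hdec : PolyTime fun x : List Bool =>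
        decide ((2 * g x + 1) * (Nat.log 2 x.length + 2) ^ 2 ≤ 2 * f x) := by fun_prop
    refine inP_of_PT hdec fun x => ?_
    rw [decide_eq_true_iff]
    have hx := hfa x
    obtain ⟨l, hl⟩ : ∃ l : ℕ, l = Nat.log 2 x.length + 2 := ⟨_, rfl⟩
    have hl2 : (2 : ℝ) ≤ l := by
      have : 2 ≤ l := by omega
      exact_mod_cast this
    beta_reduce at hx
    rw [← hl] at hx ⊢
    have hlc : (0 : ℝ) < (l : ℝ) ^ c := by positivity
    have hm : (0 : ℝ) < (2 : ℝ) ^ A.m x := by positivity
    rw [abs_le] at hx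
    obtain ⟨hx1, hx2⟩ := hx
    have e1 : (f x : ℝ) / (l : ℝ) ^ (c + 2) * (l : ℝ) ^ (c + 2) = f x := by field_simp
    have e2 : (1 : ℝ) / (l : ℝ) ^ (c + 2) * (l : ℝ) ^ (c + 2) = 1 := by field_simp
    have hlc2 : (0 : ℝ) < (l : ℝ) ^ (c + 2) := by positivity
    have hx1' := mul_le_mul_of_nonneg_right hx1 hlc2.le
    have hx2' := mul_le_mul_of_nonneg_right hx2 hlc2.le
    rw [neg_mul, e2, sub_mul, e1] at hx1'
    rw [e2, sub_mul, e1] at hx2'
    have e3 : (A.acc x : ℝ) / 2 ^ A.m x * (l : ℝ) ^ (c + 2) = ((l : ℝ) ^ c * A.acc x / 2 ^ A.m x) * l ^ 2 := by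
      rw [pow_add]; ring
    rw [e3] at hx1' hx2'
    have hl4 : (4 : ℝ) ≤ (l : ℝ) ^ 2 := by nlinarith
    constructor
    · intro hxL
      have h3 := h1 x hxL
      rw [← hl] at h3
      have h3' : ((g x : ℝ) + 1) * 2 ^ A.m x ≤ (l : ℝ) ^ c * A.acc x := by exact_mod_cast h3
      have h4 : (g x : ℝ) + 1 ≤ (l : ℝ) ^ c * A.acc x / 2 ^ A.m x := (le_div_iff₀ hm).2 h3'
      have h5 : ((g x : ℝ) + 1) * l ^ 2 ≤ ((l : ℝ) ^ c * A.acc x / 2 ^ A.m x) * l ^ 2 :=
        mul_le_mul_of_nonneg_right h4 (by positivity)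
      have h6 : (2 * (g x : ℝ) + 1) * l ^ 2 ≤ 2 * f x := by nlinarith
      exact_mod_cast h6
    · intro hd
      by_contra hxL
      have h3 := h2 x hxL
      rw [← hl] at h3
      have h3' : (l : ℝ) ^ c * A.acc x ≤ (g x : ℝ) * 2 ^ A.m x := by exact_mod_cast h3
      have h4 : (l : ℝ) ^ c * A.acc x / 2 ^ A.m x ≤ (g x : ℝ) := (div_le_iff₀ hm).2 h3'
      have h5 : ((l : ℝ) ^ c * A.acc x / 2 ^ A.m x) * l ^ 2 ≤ (g x : ℝ) * l ^ 2 :=
        mul_le_mul_of_nonneg_right h4 (by positivity)
      have h6 : (2 * (g x : ℝ) + 1) * l ^ 2 ≤ 2 * f x := by exact_mod_cast hd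
      nlinarith

end Pool.Agent.Helper61.DT
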