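import Pool.Agent.Helper78.DT.Goals

/-!
# Project DT, packet TRF: renaming invariance of probabilities
-/

set_option autoImplicit false

namespace Pool.Agent.Helper61.DT

open Pool.Agent.Helper78.DT

open scoped Classical

/-- restriction along an injection keeps averages -/
theorem av_inj {A V' : Type} [Fintype A] [DecidableEq A] [Fintype V'] [DecidableEq V'] (j : A → V')
    (hj : Function.Injective j) (F : (A → Bool) → ℝ) :
    av (fun y : V' → Bool => F fun a => y (j a)) = av F := by
  let C : Type := {v' : V' // v' ∉ Set.range j}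
  let e : A ⊕ C ≃ V' :=
    (Equiv.sumCongr (Equiv.ofInjective j hj) (Equiv.refl C)).trans (Equiv.Set.sumCompl (Set.range j))
  let e2 : (V' → Bool) ≃ (A → Bool) × (C → Bool) :=
    (Equiv.arrowCongr e.symm (Equiv.refl Bool)).trans (Equiv.sumArrowEquivProdArrow A C Bool)
  have h1 : ∀ y : V' → Bool, (e2 y).1 = fun a => y (j a) := by
    intro y
    funext a
    rfl
  have h2 : av (fun y : V' → Bool => F (e2 y).1) = av (fun p : (A → Bool) × (C → Bool) => F p.1) :=
    av_equiv e2 (fun p => F p.1)
  simp_rw [h1] at h2
  rw [h2, av_prod]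
  exact av_congr fun s => av_const (F s)

/-- PACKET TRF -/
theorem trf : TrfStmt := by
  intro V V' _ _ _ _ π S E hπ hE
  obtain ⟨F, hF⟩ : ∃ F : (S → Bool) → ℝ, ∀ s, F s =
      if E (fun v => if h : v ∈ S then s ⟨v, h⟩ else false) then 1 else 0 := ⟨_, fun _ => rfl⟩
  have h1 : ∀ x : V → Bool, (if E x then (1 : ℝ) else 0) = F (fun v : S => x v) := by
    intro x
    rw [hF]
    have h2 : E x ↔ E (fun v => if h : v ∈ S then x v else false) := by
      refine hE _ _ fun v hv => ?_
      rw [dif_pos hv]
    simp only [h2]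
  have hj : Function.Injective (fun v : S => π v) := fun a b hab => Subtype.ext (hπ a.2 b.2 hab)
  unfold pr
  simp_rw [h1]
  rw [av_inj (fun v : S => (v : V)) Subtype.val_injective F]
  exact av_inj (fun v : S => π v) hj F

end Pool.Agent.Helper61.DT
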